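import Mathlib

/-!
A triangular covering map between finite connected graphs, where the clique graph of the covering
graph is isomorphic to it, but the clique graph of the base is not isomorphic to the base.
-/

namespace Pool.Agent.Results.MP_3c8d56_co.FiniteCounterexample

open SimpleGraph

/-- The cliques of `G`: inclusion-maximal complete subgraphs. -/
def MaxClique {V : Type*} (G : SimpleGraph V) : Type _ := {s : Set V // Maximal G.IsClique s}

/-- The clique graph `k G`. -/
def cliqueGraph {V : Type*} (G : SimpleGraph V) : SimpleGraph (MaxClique G) where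
  Adj s t := s ≠ t ∧ (s.1 ∩ t.1).Nonempty
  symm := ⟨fun s t h => ⟨h.1.symm, by rw [Set.inter_comm]; exact h.2⟩⟩
  loopless := ⟨fun _ h => h.1 rfl⟩

/-- `p` is a triangular covering map: a homomorphism between connected graphs which restricts to
an isomorphism from each closed neighbourhood onto the closed neighbourhood of the image. -/
structure IsTriangularCovering {V W : Type*} (G' : SimpleGraph V) (G : SimpleGraph W)
    (p : V → W) : Prop where
  connected' : G'.Connected
  connected : G.Connected
  hom : ∀ x y, G'.Adj x y → G.Adj (p x) (p y)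
  bijOn : ∀ v, Set.BijOn p (insert v (G'.neighborSet v)) (insert (p v) (G.neighborSet (p v)))
  iso : ∀ v, ∀ x ∈ insert v (G'.neighborSet v), ∀ y ∈ insert v (G'.neighborSet v),
    (G.Adj (p x) (p y) ↔ G'.Adj x y)

/-- If the sets `f i` are exactly the maximal cliques of `G`, then `k G` is their intersection
graph. -/
theorem clique_iso {V W : Type*} (G : SimpleGraph V) (H : SimpleGraph W) (f : W → Set V)
    (hinj : Function.Injective f)
    (hclique : ∀ i, ∀ x ∈ f i, ∀ y ∈ f i, x ≠ y → G.Adj x y)
    (hmax : ∀ i w, (∀ u ∈ f i, w = u ∨ G.Adj w u) → w ∈ f i)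
    (hnb : ∀ x, ∃ y, G.Adj x y)
    (hedge : ∀ x y, G.Adj x y → ∃ i, ∀ w, (w = x ∨ G.Adj w x) → (w = y ∨ G.Adj w y) → w ∈ f i)
    (hne : Nonempty V)
    (hadj : ∀ i j, H.Adj i j ↔ i ≠ j ∧ ∃ x, x ∈ f i ∧ x ∈ f j) :
    Nonempty (cliqueGraph G ≃g H) := by
  have hM : ∀ i, Maximal G.IsClique (f i) := by
    intro i
    refine ⟨fun x hx y hy hxy => hclique i x hx y hy hxy, ?_⟩
    intro t ht hle w hw
    apply hmax i w
    intro u hu
    by_cases h : w = u
    · exact Or.inl h
    · exact Or.inr (ht hw (hle hu) h)
  let F : W → MaxClique G := fun i => ⟨f i, hM i⟩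
  have hF : Function.Bijective F := by
    constructor
    · intro i j h
      exact hinj (congrArg Subtype.val h)
    · rintro ⟨s, hs⟩
      -- `s` contains an edge
      obtain ⟨x, hx⟩ : s.Nonempty := by
        obtain ⟨v⟩ := hne
        rw [Set.nonempty_iff_ne_empty]
        rintro rfl
        have : ({v} : Set V) ⊆ ∅ := hs.2 (by simp) (Set.empty_subset _)
        exact this rfl
      obtain ⟨y, hy, hxy⟩ : ∃ y ∈ s, G.Adj x y := by
        by_contra hcon
        push Not at hcon
        have hsx : s ⊆ {x} := by
          intro z hz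
          by_contra hzx
          exact hcon z hz (hs.1 hx hz (fun h => hzx h.symm))
        obtain ⟨y, hy⟩ := hnb x
        have h1 : G.IsClique ({x, y} : Set V) := by
          intro a ha b hb hab
          rcases ha with rfl | rfl <;> rcases hb with rfl | rfl
          · exact absurd rfl hab
          · exact hy
          · exact hy.symm
          · exact absurd rfl hab
        have h2 : ({x, y} : Set V) ⊆ s := hs.2 h1 (hsx.trans (by simp))
        have h3 : y ∈ s := h2 (by simp)
        exact hcon y h3 hy
      obtain ⟨i, hi⟩ := hedge x y hxy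
      have hsub : s ⊆ f i := by
        intro w hw
        apply hi w
        · by_cases h : w = x
          · exact Or.inl h
          · exact Or.inr (hs.1 hw hx h)
        · by_cases h : w = y
          · exact Or.inl h
          · exact Or.inr (hs.1 hw hy h)
      refine ⟨i, ?_⟩
      apply Subtype.ext
      exact Set.Subset.antisymm (hs.2 (hM i).1 hsub) hsub
  refine ⟨(RelIso.mk (Equiv.ofBijective F hF) ?_).symm⟩
  intro i j
  rw [hadj i j]
  simp only [cliqueGraph, Equiv.ofBijective_apply]
  constructor
  · rintro ⟨h1, x, hx1, hx2⟩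
    exact ⟨fun h => h1 (by rw [h]), x, hx1, hx2⟩
  · rintro ⟨h1, x, hx1, hx2⟩
    exact ⟨fun h => h1 (hF.1 h), x, hx1, hx2⟩

/-- The graph on `Fin n` with adjacency bits `M`. -/
def mk (n M : ℕ) : SimpleGraph (Fin n) where
  Adj i j := i ≠ j ∧ (M.testBit (n * i.1 + j.1) = true ∨ M.testBit (n * j.1 + i.1) = true)
  symm := ⟨fun _ _ h => ⟨h.1.symm, h.2.symm⟩⟩
  loopless := ⟨fun _ h => h.1 rfl⟩

instance (n M : ℕ) : DecidableRel (mk n M).Adj := fun i j =>
  inferInstanceAs (Decidable (i ≠ j ∧
    (M.testBit (n * i.1 + j.1) = true ∨ M.testBit (n * j.1 + i.1) = true)))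

/-- Adjacency bits of the base graph. -/
def MG : ℕ := 28952660289614916009311227076029949113594072246519727755594254966608917168692

/-- Adjacency bits of the clique graph of the base. -/
def MH : ℕ := 36189665868631594784955223834230386819771468109391767967736771365180438217316

/-- Adjacency bits of the covering graph. -/
def MT : ℕ := 44942328481429385737229869640475268097085815640735805753577948930291210410790733648317858414559700985172151230610832731983364019747725411509173664175909076085017156866106756895668253031494561587851147661861121219276639722788753676499540189760365035014057191646427350394586923073147954800345142063010897986084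

/-- The base graph. -/
abbrev G : SimpleGraph (Fin 16) := mk 16 MG

/-- The clique graph of the base graph. -/
abbrev H : SimpleGraph (Fin 16) := mk 16 MH

/-- The covering graph. -/
abbrev T : SimpleGraph (Fin 32) := mk 32 MT

/-- The cliques of the base graph. -/
def LG : ℕ := 57900903458196269704033439031393091758082152023303289177606235331200135856673

/-- The cliques of the covering graph. -/
def LT : ℕ := 4213343286795543767539193193414902476578309386965459282780237696444277010554782801422903211839955905122776396896440571680597308109517463319981205335496406498499865146949135011611821766445646523755897418579149691901373827174769375855667756061283126926321806411076023997178213803863093691568675357349396873761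

/-- The sets with membership bits `L`. -/
def sets (n L : ℕ) (i : Fin n) : Set (Fin n) := {x | L.testBit (n * i.1 + x.1) = true}

instance (n L : ℕ) (i x : Fin n) : Decidable (x ∈ sets n L i) :=
  inferInstanceAs (Decidable (L.testBit (n * i.1 + x.1) = true))

theorem connected_of_rank {n : ℕ} (G : SimpleGraph (Fin (n + 1))) (rk : Fin (n + 1) → ℕ)
    (h : ∀ v, v = 0 ∨ ∃ w, G.Adj v w ∧ rk w < rk v) : G.Connected := by
  have key : ∀ k : ℕ, ∀ v, rk v = k → G.Reachable v 0 := by
    intro k
    induction k using Nat.strong_induction_on with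
    | _ k ih =>
      intro v hv
      rcases h v with rfl | ⟨w, hw, hlt⟩
      · exact Reachable.refl _
      · exact hw.reachable.trans (ih (rk w) (by omega) w rfl)
  have : Nonempty (Fin (n + 1)) := ⟨0⟩
  exact ⟨fun u v => (key _ u rfl).trans (key _ v rfl).symm⟩

/-- Distances to the vertex `0` in the base graph. -/
def rG (v : Fin 16) : ℕ := (235163815515546341934240 >>> (5 * v.1)) % 32

/-- Distances to the vertex `0` in the covering graph. -/
def rT (v : Fin 32) : ℕ := (284390566427648403412094189251127989564936881312 >>> (5 * v.1)) % 32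

theorem connG : G.Connected := connected_of_rank G rG (by decide +kernel)

theorem connT : T.Connected := connected_of_rank T rT (by decide +kernel)

theorem isoG : Nonempty (cliqueGraph G ≃g H) := by
  refine clique_iso G H (sets 16 LG) ?_ (by decide +kernel) (by decide +kernel)
    (by decide +kernel) (by decide +kernel) ⟨0⟩ (by decide +kernel)
  have h : ∀ i j : Fin 16, (∀ x : Fin 16, x ∈ sets 16 LG i ↔ x ∈ sets 16 LG j) → i = j := by
    decide +kernel
  intro i j hij
  exact h i j (fun x => by rw [hij])

theorem isoT : Nonempty (cliqueGraph T ≃g T) := by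
  refine clique_iso T T (sets 32 LT) ?_ (by decide +kernel) (by decide +kernel)
    (by decide +kernel) (by decide +kernel) ⟨0⟩ (by decide +kernel)
  have h : ∀ i j : Fin 32, (∀ x : Fin 32, x ∈ sets 32 LT i ↔ x ∈ sets 32 LT j) → i = j := by
    decide +kernel
  intro i j hij
  exact h i j (fun x => by rw [hij])

/-- The covering map. -/
def p (v : Fin 32) : Fin 16 := ⟨v.1 % 16, Nat.mod_lt _ (by norm_num)⟩

theorem covering : IsTriangularCovering T G p where
  connected' := connT
  connected := connG
  hom := by decide +kernel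
  bijOn := by
    have h1 : ∀ v x : Fin 32, (x = v ∨ T.Adj v x) → (p x = p v ∨ G.Adj (p v) (p x)) := by
      decide +kernel
    have h2 : ∀ v x : Fin 32, (x = v ∨ T.Adj v x) → ∀ y : Fin 32, (y = v ∨ T.Adj v y) →
        p x = p y → x = y := by
      decide +kernel
    have h3 : ∀ v : Fin 32, ∀ w : Fin 16, (w = p v ∨ G.Adj (p v) w) →
        ∃ x : Fin 32, (x = v ∨ T.Adj v x) ∧ p x = w := by
      decide +kernel
    intro v
    refine ⟨fun x hx => h1 v x hx, fun x hx y hy hxy => h2 v x hx y hy hxy, fun w hw => ?_⟩
    obtain ⟨x, hx, hxw⟩ := h3 v w hw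
    exact ⟨x, hx, hxw⟩
  iso := by
    have h : ∀ v x : Fin 32, (x = v ∨ T.Adj v x) → ∀ y : Fin 32, (y = v ∨ T.Adj v y) →
        (G.Adj (p x) (p y) ↔ T.Adj x y) := by
      decide +kernel
    exact fun v x hx y hy => h v x hx y hy

/-- A 4-cycle with two adjacent vertices of degree three. -/
def Pat {n : ℕ} (A : SimpleGraph (Fin n)) : Prop :=
  ∃ a b c d : Fin n, A.Adj a b ∧ A.Adj b c ∧ A.Adj c d ∧ A.Adj d a ∧ a ≠ c ∧ b ≠ d ∧
    (∃ x, A.Adj a x ∧ x ≠ b ∧ x ≠ d ∧ ∀ y, A.Adj a y → y = b ∨ y = d ∨ y = x) ∧
    (∃ x, A.Adj d x ∧ x ≠ c ∧ x ≠ a ∧ ∀ y, A.Adj d y → y = c ∨ y = a ∨ y = x)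

theorem pat_iso {n : ℕ} (A B : SimpleGraph (Fin n)) (e : A ≃g B) (h : Pat A) : Pat B := by
  obtain ⟨a, b, c, d, h1, h2, h3, h4, h5, h6, ⟨x, hx1, hx2, hx3, hx4⟩, ⟨z, hz1, hz2, hz3, hz4⟩⟩ := h
  have hne : ∀ u v, u ≠ v → e u ≠ e v := fun u v huv h => huv (e.injective h)
  refine ⟨e a, e b, e c, e d, e.map_adj_iff.mpr h1, e.map_adj_iff.mpr h2, e.map_adj_iff.mpr h3,
    e.map_adj_iff.mpr h4, hne _ _ h5, hne _ _ h6,
    ⟨e x, e.map_adj_iff.mpr hx1, hne _ _ hx2, hne _ _ hx3, ?_⟩,
    ⟨e z, e.map_adj_iff.mpr hz1, hne _ _ hz2, hne _ _ hz3, ?_⟩⟩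
  · intro y hy
    obtain ⟨y', rfl⟩ := e.surjective y
    rcases hx4 y' (e.map_adj_iff.mp hy) with h | h | h
    · exact Or.inl (by rw [h])
    · exact Or.inr (Or.inl (by rw [h]))
    · exact Or.inr (Or.inr (by rw [h]))
  · intro y hy
    obtain ⟨y', rfl⟩ := e.surjective y
    rcases hz4 y' (e.map_adj_iff.mp hy) with h | h | h
    · exact Or.inl (by rw [h])
    · exact Or.inr (Or.inl (by rw [h]))
    · exact Or.inr (Or.inr (by rw [h]))

theorem patH : Pat H := by
  unfold Pat
  decide +kernel

theorem not_patG : ¬ Pat G := by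
  unfold Pat
  decide +kernel

theorem result : ∃ (V W : Type) (_ : Finite V) (_ : Finite W) (G' : SimpleGraph V)
    (G : SimpleGraph W) (p : V → W), IsTriangularCovering G' G p ∧
      Nonempty (cliqueGraph G' ≃g G') ∧ IsEmpty (cliqueGraph G ≃g G) := by
  refine ⟨Fin 32, Fin 16, inferInstance, inferInstance, T, G, p, covering, isoT, ⟨fun e => ?_⟩⟩
  obtain ⟨e'⟩ := isoG
  exact not_patG (pat_iso H G (e'.symm.trans e) patH)

end Pool.Agent.Results.MP_3c8d56_co.FiniteCounterexample
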